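import Mathlib
import Pool.Agent.H719R3.FO.Top
import Pool.Agent.H719R3.FO.CUB
import Pool.Agent.H719R3.FO.CUB1
import Pool.Agent.H719R3.FO.CUB2
import Pool.Agent.H450R3.BH.Top

/-!
# Convex tables bounded by smooth algebraic curves: finitely many periodic orbits of each period

`Ω ⊂ ℂ` is a bounded strictly convex table with unique tangents
(`Pool.Agent.H719R3.BG.Table`) whose boundary is contained in an irreducible algebraic curve
`P (z, conj z) = 0`, where `P` is a polynomial in two variables `z`, `w` (the isotropic coordinates
`w = conj z`). The closed billiard polygons with `n` vertices are the sequences in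
`Pool.Agent.H719R3.BG.Polygon Ω n`: `n`-periodic sequences of boundary points, consecutive ones
different, with the reflection law at each of them.

If the curve is nonsingular, also at infinity, of degree at least three, then for every `n` there are
only finitely many of them, so that the set of all periodic phase points is countable. The same is true
if the curve has more than `2 deg P` points with parallel tangents, or many isotropic tangent lines.

The proofs are the starting developments `H450R3.BH` and `H719R3.FO`.
-/

set_option autoImplicit false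

open scoped ComplexConjugate
open Pool.Agent.H719R3.BG

namespace Pool.Agent.Results.MP_249f74_an.FinitelyManyPolygons

/-- The curve `P = 0` has no singular point in the affine plane `ℂ²`, and it has `deg P` different
points at infinity (the gradient of the form of highest degree has no zero except the origin); so it is
a nonsingular projective curve which meets the line at infinity transversally. -/
def Smooth (P : MvPolynomial (Fin 2) ℂ) : Prop :=
  (∀ x : Fin 2 → ℂ, MvPolynomial.eval x P = 0 → MvPolynomial.eval x (MvPolynomial.pderiv 0 P) = 0 →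
    MvPolynomial.eval x (MvPolynomial.pderiv 1 P) = 0 → False) ∧
  (∀ x : Fin 2 → ℂ, x ≠ 0 →
    MvPolynomial.eval x (MvPolynomial.pderiv 0
      (MvPolynomial.homogeneousComponent P.totalDegree P)) = 0 →
    MvPolynomial.eval x (MvPolynomial.pderiv 1
      (MvPolynomial.homogeneousComponent P.totalDegree P)) = 0 → False)

/-- The curve has more than `2 deg P` nonsingular points whose tangent has the direction of the real
line spanned by `u`. -/
def ManyParallelTangents (P : MvPolynomial (Fin 2) ℂ) : Prop :=
  ∃ (u : ℂ) (Z : Finset (Fin 2 → ℂ)), u ≠ 0 ∧ 2 * P.totalDegree < Z.card ∧ ∀ x ∈ Z,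
    MvPolynomial.eval x P = 0 ∧
    MvPolynomial.eval x (MvPolynomial.pderiv 0 P) * u +
      MvPolynomial.eval x (MvPolynomial.pderiv 1 P) * conj u = 0 ∧
    (MvPolynomial.eval x (MvPolynomial.pderiv 0 P) ≠ 0 ∨
      MvPolynomial.eval x (MvPolynomial.pderiv 1 P) ≠ 0)

/-- The curve has many isotropic tangent lines `z = a`: those with `a ∈ F` touch it with order
`r a ≥ 2` at a finite point, those with `a ∈ G` are asymptotes (with order of contact `r a + 1 ≥ 2` at
the point at infinity), and `4 deg P < ∑_{a ∈ F} 2 r a + ∑_{a ∈ G} (2 r a + 3)`. -/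
def ManyIsotropicTangents (P : MvPolynomial (Fin 2) ℂ) : Prop :=
  ∃ (F G : Finset ℂ) (r : ℂ → ℕ), H719FO.Hyp P F G r

/-- **Ivrii's conjecture, with finiteness, for convex tables bounded by smooth algebraic curves.**
Let `Ω` be a strictly convex table whose boundary is contained in the irreducible curve
`P (z, conj z) = 0`, and suppose that this curve is smooth (also at infinity) of degree at least three,
or that it has degree at least two and more than `2 deg P` points with parallel tangents, or that it has
many isotropic tangent lines. Then for every `n ≥ 1` there are only finitely many closed billiard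
polygons with `n` vertices, and the set of all periodic phase points, given by two consecutive
reflection points, is countable. -/
theorem result (Ω : Set ℂ) (hΩ : Table Ω) (P : MvPolynomial (Fin 2) ℂ) (hP : Irreducible P)
    (hbd : ∀ p ∈ frontier Ω, MvPolynomial.eval ![p, conj p] P = 0)
    (h : (3 ≤ P.totalDegree ∧ Smooth P) ∨ (2 ≤ P.totalDegree ∧ ManyParallelTangents P) ∨
      ManyIsotropicTangents P) :
    (∀ n : ℕ, 0 < n → {x : ℤ → ℂ | Polygon Ω n x}.Finite) ∧
    {q : ℂ × ℂ | ∃ (n : ℕ) (x : ℤ → ℂ), 0 < n ∧ Polygon Ω n x ∧ x 0 = q.1 ∧ x 1 = q.2}.Countable := by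
  have hfin : ∀ n : ℕ, 0 < n → {x : ℤ → ℂ | Polygon Ω n x}.Finite := by
    intro n hn
    rcases h with ⟨h3, hs⟩ | ⟨h2, hp⟩ | ⟨F, G, r, hr⟩
    · rcases Nat.lt_or_ge 3 P.totalDegree with h4 | h4
      · exact H450BH.finite_polygons Ω hΩ P hP (by omega) (Or.inr ⟨h4, hs.1, hs.2⟩) hbd n hn
      · have h5 : P.totalDegree = 3 := le_antisymm h4 h3
        obtain ⟨F, G, r, hr⟩ := H719FO.CUB_proof H719FO.CUB1_proof H719FO.CUB2_proof P hP h5
          hs.1 hs.2
        exact H719FO.finite_polygons Ω hΩ P hP hbd F G r hr n hn
    · exact H450BH.finite_polygons Ω hΩ P hP h2 (Or.inl hp) hbd n hn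
    · exact H719FO.finite_polygons Ω hΩ P hP hbd F G r hr n hn
  refine ⟨hfin, ?_⟩
  have h1 : {q : ℂ × ℂ | ∃ (n : ℕ) (x : ℤ → ℂ), 0 < n ∧ Polygon Ω n x ∧ x 0 = q.1 ∧ x 1 = q.2} ⊆
      ⋃ n : ℕ, (fun x : ℤ → ℂ => (x 0, x 1)) '' {x : ℤ → ℂ | 0 < n ∧ Polygon Ω n x} := by
    rintro ⟨a, b⟩ ⟨n, x, hn, hx, h0, h1⟩
    exact Set.mem_iUnion.2 ⟨n, x, ⟨hn, hx⟩, Prod.ext h0 h1⟩
  refine Set.Countable.mono h1 (Set.countable_iUnion fun n => ?_)
  rcases Nat.eq_zero_or_pos n with h0 | h0
  · subst h0
    simp
  · exact ((hfin n h0).subset fun x hx => hx.2).countable.image _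

end Pool.Agent.Results.MP_249f74_an.FinitelyManyPolygons
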